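import Pool.Agent.Run7.h302.FE.Idx

/-!
# Fermat numbers, Pepin tests and power residues
-/

set_option autoImplicit false

namespace Run7.h302.FE

open Pool.Agent.Y875.FP (sgn sgn_or AA IsInd mersenne_index exists_isInd xpow conv)

theorem neg_half {m : ℕ} : (2 : ZMod (Nat.fermatNumber m)) ^ (2 ^ m) = -1 := by
  have hx := xpow (m := m) (p := Nat.fermatNumber m) (x := 2) rfl
  push_cast at hx
  exact hx

/-- `2 ^ S + 1` as a number `2 ^ S' - 1` -/
theorem plus_one {m n s : ℕ} (hn : n ≤ m) : (2 : ZMod (Nat.fermatNumber m)) ^ (2 ^ n * s) + 1 =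
    -(2 ^ (2 ^ n * (s + 2 ^ (m - n))) - 1) := by
  have h6 : 2 ^ n * (s + 2 ^ (m - n)) = 2 ^ n * s + 2 ^ m := by
    rw [mul_add, ← pow_add]
    congr 2
    omega
  rw [h6, pow_add, neg_half]
  ring

theorem plus_pow {m n s k : ℕ} (hn : n ≤ m) (hk : Even k) :
    ((2 : ZMod (Nat.fermatNumber m)) ^ (2 ^ n * s) + 1) ^ k =
      (2 ^ (2 ^ n * (s + 2 ^ (m - n))) - 1) ^ k := by
  rw [plus_one hn, hk.neg_pow]

theorem sgn_one {m k : ℕ} (hk : k < 2 ^ m) : sgn m 1 k = 1 := by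
  unfold sgn
  have h1 : (k : ZMod (2 ^ (m + 1))) * ((1 : ℕ) : ZMod (2 ^ (m + 1)))⁻¹ = k := by
    have h2 := inv_odd m odd_one
    push_cast at h2 ⊢
    rw [one_mul] at h2
    rw [h2, mul_one]
  have h2 : 2 ^ m < 2 ^ (m + 1) := Nat.pow_lt_pow_right (by norm_num) (by omega)
  rw [h1, ZMod.val_natCast_of_lt (hk.trans h2), if_pos hk]

theorem sgn_fermat {m n t : ℕ} (hn : n < m) (ht : 2 ^ n * t < 2 ^ m) :
    sgn m (1 + 2 ^ (m - n)) (2 ^ n * t) = (-1) ^ t := by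
  rcases Nat.even_or_odd t with he | ho
  · rw [sgn_even odd_one hn, sgn_one ht, he.neg_one_pow]
    obtain ⟨c, hc⟩ := he
    exact ⟨c, by rw [hc]; ring⟩
  · rw [sgn_odd odd_one hn ho, sgn_one ht, ho.neg_one_pow]

/-- the series `∑ (-1) ^ t 2 ^ (2 ^ n t) / t = -log (1 + 2 ^ 2 ^ n)` -/
noncomputable def Y (m n : ℕ) : ℚ := ∑ t ∈ Finset.Icc 1 (2 * m + 4), (-1 : ℚ) ^ t * q n t

theorem X_fermat {m n N : ℕ} (hm : 4 ≤ m) (hn1 : 1 ≤ n) (hn : n < m) (hN : N ≤ m + 3)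
    (hq : ∀ t, 1 ≤ t → Z2 (N - (m - n)) (q n t)) (hN' : m - n ≤ N) :
    Z2 N (X m n (1 + 2 ^ (m - n)) - Y m n) := by
  unfold X Y
  rw [Finset.mul_sum, ← Finset.sum_sub_distrib]
  refine Z2.sum _ fun t ht => ?_
  rw [Finset.mem_Icc] at ht
  rcases Nat.lt_or_ge (2 ^ n * t) (2 ^ m) with h | h
  · rw [sgn_fermat hn h]
    have h1 := (hq t ht.1).mul_dvd (M := m - n) (c := (-1) ^ t * 2 ^ (m - n)) (dvd_mul_left _ _)
    have h2 := h1.mono (M := N) (by omega)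
    convert h2 using 1
    push_cast
    ring
  · have h1 := (Z2_q_big hm hn1 ht.1 h).mono hN
    have h2 := (h1.mul_int ((1 + 2 ^ (m - n)) * sgn m (1 + 2 ^ (m - n)) (2 ^ n * t))).sub
      (h1.mul_int ((-1) ^ t))
    convert h2 using 1
    push_cast
    ring

theorem X_fermat_one {m n : ℕ} (hm : 4 ≤ m) (hn1 : 1 ≤ n) (hn : n < m) :
    Z2 (m + 1) (X m n (1 + 2 ^ (m - n)) - Y m n) :=
  X_fermat hm hn1 hn (by omega) (fun t ht => (Z2_q1 ht).mono (by omega)) (by omega)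

theorem X_fermat_three {m n : ℕ} (hm : 4 ≤ m) (hn3 : 3 ≤ n) (hn : n < m) :
    Z2 (m + 3) (X m n (1 + 2 ^ (m - n)) - Y m n) :=
  X_fermat hm (by omega) hn le_rfl (fun t ht => (Z2_q3 hn3 ht).mono (by omega)) (by omega)

/-- the law for Fermat numbers, level `2 ^ (m - 1)` -/
def IndF1 (m n A : ℕ) : Prop := Z2 (m + 1) ((A : ℚ) - Y m n)

/-- the law for Fermat numbers, level `2 ^ (m + 1)` -/
def IndF3 (m n E : ℕ) : Prop := Z2 (m + 3) (4 * (E : ℚ) - Y m n)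

theorem indF1_iff {m n A : ℕ} (hm : 4 ≤ m) (hn1 : 1 ≤ n) (hn : n < m) :
    IndF1 m n A ↔ Ind1 m n (1 + 2 ^ (m - n)) A := by
  have h := X_fermat_one hm hn1 hn
  constructor
  · intro h1
    have h2 := Z2.sub h1 h
    unfold Ind1
    convert h2 using 1
    ring
  · intro h1
    have h2 := Z2.add h1 h
    unfold IndF1
    convert h2 using 1
    ring

theorem indF3_iff {m n E : ℕ} (hm : 4 ≤ m) (hn3 : 3 ≤ n) (hn : n < m) :
    IndF3 m n E ↔ Ind3 m n (1 + 2 ^ (m - n)) E := by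
  have h := X_fermat_three hm hn3 hn
  constructor
  · intro h1
    have h2 := Z2.sub h1 h
    unfold Ind3
    convert h2 using 1
    ring
  · intro h1
    have h2 := Z2.add h1 h
    unfold IndF3
    convert h2 using 1
    ring

theorem fermat_cast {m n : ℕ} : ((Nat.fermatNumber n : ℕ) :
    ZMod (Nat.fermatNumber m)) = 2 ^ (2 ^ n * 1) + 1 := by
  unfold Nat.fermatNumber
  push_cast
  rw [mul_one]

/-! ### Pepin tests -/

theorem exp_id {m n : ℕ} (hm : 4 ≤ m) (hn : 2 ^ n ≤ m + 2) :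
    2 ^ (m + 2 - 2 ^ n) * T m = 2 ^ (2 ^ m + 1 - 2 ^ n) := by
  have h : ∀ m : ℕ, 4 ≤ m → m + 1 < 2 ^ m := by
    intro m hm
    induction m, hm using Nat.le_induction with
    | base => norm_num
    | succ e he ih => rw [pow_succ]; omega
  have := h m hm
  unfold T
  rw [← pow_add]
  congr 1
  omega

/-- the leading term of the series -/
theorem X_lead {m n s : ℕ} (hn1 : 1 ≤ n) :
    Z2 (2 ^ n + 1) (X m n s - ((s * sgn m s (2 ^ n) : ℤ) : ℚ) * 2 ^ (2 ^ n)) := by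
  have h1 : Finset.Icc 1 (2 * m + 4) = insert 1 (Finset.Icc 2 (2 * m + 4)) := by
    ext k
    simp only [Finset.mem_insert, Finset.mem_Icc]
    omega
  have h2 : X m n s - ((s * sgn m s (2 ^ n) : ℤ) : ℚ) * 2 ^ (2 ^ n) =
      (s : ℤ) * ∑ t ∈ Finset.Icc 2 (2 * m + 4), (sgn m s (2 ^ n * t) : ℚ) * q n t := by
    unfold X
    rw [h1, Finset.sum_insert (by simp), mul_one, q]
    push_cast
    rw [mul_one, div_one]
    ring
  rw [h2]
  refine (Z2.sum _ fun t ht => ?_).mul_int _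
  rw [Finset.mem_Icc] at ht
  exact (Z2_q_two hn1 ht.1).mul_int _

theorem pepin_fwd {m n s : ℕ} (hm : 5 ≤ m) (hn1 : 1 ≤ n) (hn : 2 ^ n ≤ m + 2) (hnm : n ≤ m)
    (hs : Odd s) (hF : (Nat.fermatNumber m).Prime) :
    ((2 : ZMod (Nat.fermatNumber m)) ^ (2 ^ n * s) - 1) ^ (2 ^ (2 ^ m + 1 - 2 ^ n)) = -1 := by
  obtain ⟨E, hE, hE'⟩ := exists_index (by omega) n hnm hs
  have h2n : 2 ≤ 2 ^ n := by
    calc 2 = 2 ^ 1 := (pow_one 2).symm
      _ ≤ 2 ^ n := Nat.pow_le_pow_right (by norm_num) hn1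
  have h1 : Z2 (2 ^ n + 1) (4 * (E : ℚ) - X m n s) := by
    rcases Nat.lt_or_ge n 3 with h3 | h3
    · have h4 := rel_one hnm hs hE
      unfold Ind1 at h4
      push_cast at h4
      refine h4.mono ?_
      interval_cases n
      · omega
      · omega
    · exact (rel_three hm h3 hnm hs hE).mono (by omega)
  have h2 := (h1.add (X_lead (m := m) (s := s) hn1))
  have h3 : Z2 (2 ^ n + 1) ((4 * E - s * sgn m s (2 ^ n) * 2 ^ (2 ^ n) : ℤ) : ℚ) := by
    convert h2 using 1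
    push_cast
    ring
  obtain ⟨c, hc⟩ := h3.int
  -- `4 E = 2 ^ 2 ^ n w`, `w` odd
  have hw : (4 * E : ℤ) = 2 ^ (2 ^ n) * (s * sgn m s (2 ^ n) + 2 * c) := by
    rw [pow_succ] at hc
    linear_combination hc
  have hodd : Odd ((s : ℤ) * sgn m s (2 ^ n) + 2 * c) := by
    apply Odd.add_even _ (even_two_mul c)
    apply Odd.mul (by exact_mod_cast hs)
    rcases sgn_or m s (2 ^ n) with h | h <;> rw [h]
    · exact odd_one
    · exact odd_neg_one
  obtain ⟨w, hw0⟩ : ∃ w : ℕ, (w : ℤ) = (s : ℤ) * sgn m s (2 ^ n) + 2 * c := by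
    have hpos : 0 ≤ (s : ℤ) * sgn m s (2 ^ n) + 2 * c := by
      by_contra hneg
      push Not at hneg
      have h4 : (0 : ℤ) < 2 ^ (2 ^ n) := by positivity
      nlinarith
    exact ⟨_, Int.toNat_of_nonneg hpos⟩
  have hwodd : Odd w := by
    rw [← hw0] at hodd
    exact_mod_cast hodd
  have hE2 : E = 2 ^ (2 ^ n - 2) * w := by
    have h4 : (4 * E : ℤ) = 4 * (2 ^ (2 ^ n - 2) * w) := by
      rw [hw, ← hw0]
      have h5 : (2 : ℤ) ^ (2 ^ n) = 4 * 2 ^ (2 ^ n - 2) := by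
        obtain ⟨e, he⟩ := Nat.exists_eq_add_of_le h2n
        rw [he, Nat.add_sub_cancel_left, pow_add]
        norm_num
      rw [h5]
      ring
    have h5 : (E : ℤ) = 2 ^ (2 ^ n - 2) * w := by linarith
    exact_mod_cast h5
  have h4 := hE' hF
  rw [← exp_id (by omega) hn, mul_comm (2 ^ (m + 2 - 2 ^ n)) (T m), pow_mul, h4, ← pow_mul, hE2]
  have h5 : 2 ^ (2 ^ n - 2) * w * 2 ^ (m + 2 - 2 ^ n) = 2 ^ m * w := by
    have h6 : 2 ^ m = 2 ^ (2 ^ n - 2) * 2 ^ (m + 2 - 2 ^ n) := by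
      rw [← pow_add]
      congr 1
      omega
    rw [h6]
    ring
  rw [h5, pow_mul, neg_half, hwodd.neg_one_pow]

theorem pepin_bwd {m n b : ℕ} (hm : 5 ≤ m) (hn : 2 ^ n ≤ m + 2)
    (h : (b : ZMod (Nat.fermatNumber m)) ^ (2 ^ (2 ^ m + 1 - 2 ^ n)) = -1) :
    (Nat.fermatNumber m).Prime := by
  refine prime_of (by omega) (b := b) (k := 2 ^ (m + 2 - 2 ^ n)) (y := 2 ^ m) ?_ ?_
  · intro hd
    have := Nat.le_of_dvd (by positivity) hd
    rw [pow_succ] at this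
    have h2 : 0 < 2 ^ m := by positivity
    omega
  · rw [exp_id (by omega) hn, h, neg_half]

/-! ### Power residues -/

theorem X_zero {m n s : ℕ} (hn : m + 3 ≤ 2 ^ n) : Z2 (m + 3) (X m n s) := by
  unfold X
  have h1 : Z2 (m + 3) (∑ t ∈ Finset.Icc 1 (2 * m + 4), (sgn m s (2 ^ n * t) : ℚ) * q n t) := by
    refine Z2.sum _ fun t ht => ?_
    rw [Finset.mem_Icc] at ht
    exact ((Z2_q_all ht.1).mono hn).mul_int _
  exact_mod_cast h1.mul_int (s : ℤ)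

theorem residue {m n s : ℕ} (hm : 5 ≤ m) (hn : m + 3 ≤ 2 ^ n) (hnm : n ≤ m) (hs : Odd s)
    (hF : (Nat.fermatNumber m).Prime) :
    ((2 : ZMod (Nat.fermatNumber m)) ^ (2 ^ n * s) - 1) ^ T m = 1 := by
  have h3 : 3 ≤ n := by
    by_contra h
    push Not at h
    have : 2 ^ n ≤ 2 ^ 2 := Nat.pow_le_pow_right (by norm_num) (by omega)
    omega
  have h1 : Ind3 m n s 0 := by
    unfold Ind3
    have := (X_zero (m := m) (n := n) (s := s) hn).neg
    convert this using 1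
    push_cast
    ring
  have h2 := index_three hm h3 hnm hs h1 hF
  rwa [pow_zero] at h2

end Run7.h302.FE
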