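import Pool.Agent.Run7.h302.FE.Three

/-!
# The index of `2 ^ S - 1`, `S` even, modulo a Fermat prime
-/

set_option autoImplicit false

namespace Run7.h302.FE

open Pool.Agent.Y875.FP (sgn sgn_or AA IsInd mersenne_index exists_isInd xpow conv)

/-- the exponent `(F_m - 1) / 2 ^ (m + 1)` -/
def T (m : ℕ) : ℕ := 2 ^ (2 ^ m - (m + 1))

theorem T_even {m : ℕ} (hm : 4 ≤ m) : Even (T m) := by
  have h : ∀ m : ℕ, 4 ≤ m → m + 1 < 2 ^ m := by
    intro m hm
    induction m, hm using Nat.le_induction with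
    | base => norm_num
    | succ e he ih => rw [pow_succ]; omega
  have := h m hm
  exact Even.pow_of_ne_zero even_two (by omega)

theorem W_isInd {m s E : ℕ} (h : Z2 (m + 3) (4 * (E : ℚ) - W m 0 s (2 * m + 4))) :
    IsInd m 2 s (2 * m + 4) E := by
  obtain ⟨d, n, hd, h1⟩ := h
  refine ⟨d, n, hd, ?_⟩
  rw [← h1]
  congr 2
  unfold W AA
  rw [← sum_range_Icc, Finset.mul_sum]
  refine Finset.sum_congr rfl fun k _ => ?_
  simp only [DD]
  push_cast
  ring

theorem isInd_W {m s E : ℕ} (h : IsInd m 2 s (2 * m + 4) E) :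
    Z2 (m + 3) (4 * (E : ℚ) - W m 0 s (2 * m + 4)) := by
  obtain ⟨d, n, hd, h1⟩ := h
  refine ⟨d, n, hd, ?_⟩
  rw [← h1]
  congr 2
  unfold W AA
  rw [← sum_range_Icc, Finset.mul_sum]
  refine Finset.sum_congr rfl fun k _ => ?_
  simp only [DD]
  push_cast
  ring

/-- the index of `2 ^ (2 ^ n * s) - 1` -/
theorem exists_index {m : ℕ} (hm : 4 ≤ m) : ∀ (n : ℕ), n ≤ m → ∀ {s : ℕ}, Odd s →
    ∃ E : ℕ, Z2 (m + 3) (4 * (E : ℚ) - W m n s (2 * m + 4)) ∧
      ((Nat.fermatNumber m).Prime →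
        ((2 : ZMod (Nat.fermatNumber m)) ^ (2 ^ n * s) - 1) ^ T m = 2 ^ E) := by
  intro n
  induction n with
  | zero =>
    intro _ s hs
    obtain ⟨E, hE⟩ := exists_isInd m s (2 * m + 2)
    refine ⟨E, isInd_W hE, fun hF => ?_⟩
    rw [pow_zero, one_mul]
    exact mersenne_index hm hs hE hF
  | succ n ih =>
    intro hn s hs
    obtain ⟨E1, h1, h1'⟩ := ih (by omega) hs
    obtain ⟨E2, h2, h2'⟩ := ih (by omega) (odd_shift hs (show n < m by omega))
    refine ⟨E1 + E2, ?_, fun hF => ?_⟩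
    · have h3 := h1.add h2
      have h4 : W m (n + 1) s (2 * m + 4) = W m n s (2 * m + 4) +
          W m n (s + 2 ^ (m - n)) (2 * m + 4) := by
        unfold W
        rw [← Finset.sum_add_distrib]
        refine Finset.sum_congr rfl fun k _ => ?_
        have e : DD m (n + 1) s k = DD m n s k + DD m n (s + 2 ^ (m - n)) k := rfl
        rw [e]
        push_cast
        ring
      rw [h4]
      convert h3 using 1
      push_cast
      ring
    · have h3 := h1' hF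
      have h4 := h2' hF
      have hx := xpow (m := m) (p := Nat.fermatNumber m) (x := 2) rfl
      push_cast at hx
      have h5 : (2 : ZMod (Nat.fermatNumber m)) ^ (2 ^ n * (s + 2 ^ (m - n))) =
          -(2 ^ (2 ^ n * s)) := by
        have h6 : 2 ^ n * (s + 2 ^ (m - n)) = 2 ^ n * s + 2 ^ m := by
          rw [mul_add, ← pow_add]
          congr 2
          omega
        rw [h6, pow_add, hx]
        ring
      rw [h5] at h4
      rw [pow_add (2 : ZMod (Nat.fermatNumber m)) E1 E2, ← h3, ← h4, ← mul_pow]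
      have h7 : (2 : ZMod (Nat.fermatNumber m)) ^ (2 ^ (n + 1) * s) - 1 =
          -((2 ^ (2 ^ n * s) - 1) * (-2 ^ (2 ^ n * s) - 1)) := by
        have h8 : 2 ^ (n + 1) * s = 2 ^ n * s * 2 := by ring
        rw [h8, pow_mul]
        ring
      rw [h7, (T_even hm).neg_pow]

/-- the law at the level `2 ^ (m - 1)`: `A ≡ X` modulo `2 ^ (m + 1)` -/
def Ind1 (m n s A : ℕ) : Prop := Z2 (m + 1) ((A : ℚ) - X m n s)

/-- the law at the level `2 ^ (m + 1)`: `4 E ≡ X` modulo `2 ^ (m + 3)` -/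
def Ind3 (m n s E : ℕ) : Prop := Z2 (m + 3) (4 * (E : ℚ) - X m n s)

theorem two_pow_congr {m a b : ℕ} (h : (2 : ℤ) ^ (m + 1) ∣ (a : ℤ) - b) :
    (2 : ZMod (Nat.fermatNumber m)) ^ a = 2 ^ b := by
  have hx := xpow (m := m) (p := Nat.fermatNumber m) (x := 2) rfl
  push_cast at hx
  have h1 : (2 : ZMod (Nat.fermatNumber m)) ^ (2 ^ (m + 1)) = 1 := by
    rw [pow_succ, pow_mul, hx]
    norm_num
  wlog hab : b ≤ a generalizing a b
  · exact (this (by rw [← neg_sub]; exact h.neg_right) (by omega)).symm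
  obtain ⟨c, rfl⟩ := Nat.exists_eq_add_of_le hab
  have h2 : 2 ^ (m + 1) ∣ c := by
    have h3 : ((b + c : ℕ) : ℤ) - b = c := by push_cast; ring
    rw [h3] at h
    exact_mod_cast h
  obtain ⟨e, rfl⟩ := h2
  rw [pow_add, pow_mul, h1, one_pow, mul_one]

theorem rel_one {m n s E : ℕ} (hn : n ≤ m) (hs : Odd s)
    (hE : Z2 (m + 3) (4 * (E : ℚ) - W m n s (2 * m + 4))) : Ind1 m n s (4 * E) := by
  have h1 := W_one hn hs
  have h2 := W_far (m := m) (n := n) (s := s) (K := 2 ^ n * (2 * m + 4))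
    (Nat.le_mul_of_pos_left _ (by positivity))
  have h3 := ((hE.sub h2).mono (show m + 1 ≤ m + 3 by omega)).add h1
  unfold Ind1
  convert h3 using 1
  push_cast
  ring

theorem rel_three {m n s E : ℕ} (hm : 5 ≤ m) (hn3 : 3 ≤ n) (hn : n ≤ m) (hs : Odd s)
    (hE : Z2 (m + 3) (4 * (E : ℚ) - W m n s (2 * m + 4))) : Ind3 m n s E := by
  have h1 := W_three hm hn3 hn hs
  have h2 := W_far (m := m) (n := n) (s := s) (K := 2 ^ n * (2 * m + 4))
    (Nat.le_mul_of_pos_left _ (by positivity))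
  have h3 := (hE.sub h2).add h1
  unfold Ind3
  convert h3 using 1
  ring

/-- **The index at the level `2 ^ (m - 1)`.** -/
theorem index_one {m n s A : ℕ} (hm : 4 ≤ m) (hn : n ≤ m) (hs : Odd s) (hA : Ind1 m n s A)
    (hF : (Nat.fermatNumber m).Prime) :
    ((2 : ZMod (Nat.fermatNumber m)) ^ (2 ^ n * s) - 1) ^ (4 * T m) = 2 ^ A := by
  obtain ⟨E, hE, hE'⟩ := exists_index hm n hn hs
  have h1 := rel_one hn hs hE
  have h2 : Z2 (m + 1) ((((4 * E : ℕ) : ℤ) - (A : ℤ) : ℤ) : ℚ) := by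
    have h3 := h1.sub hA
    convert h3 using 1
    push_cast
    ring
  rw [mul_comm 4 (T m), pow_mul, hE' hF, ← pow_mul, mul_comm E 4]
  exact two_pow_congr h2.int

/-- **The index at the level `2 ^ (m + 1)`.** -/
theorem index_three {m n s E : ℕ} (hm : 5 ≤ m) (hn3 : 3 ≤ n) (hn : n ≤ m) (hs : Odd s)
    (hA : Ind3 m n s E) (hF : (Nat.fermatNumber m).Prime) :
    ((2 : ZMod (Nat.fermatNumber m)) ^ (2 ^ n * s) - 1) ^ T m = 2 ^ E := by
  obtain ⟨E', hE, hE'⟩ := exists_index (by omega) n hn hs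
  have h1 := rel_three hm hn3 hn hs hE
  have h2 : Z2 (m + 3) (((4 * ((E' : ℤ) - (E : ℤ)) : ℤ)) : ℚ) := by
    have h3 := Z2.sub h1 hA
    convert h3 using 1
    push_cast
    ring
  rw [hE' hF]
  apply two_pow_congr
  have h4 := h2.int
  have h5 : (2 : ℤ) ^ (m + 3) = 4 * 2 ^ (m + 1) := by ring
  rw [h5] at h4
  exact Int.dvd_of_mul_dvd_mul_left (by norm_num) h4

theorem exists_ind1 {m n s : ℕ} (hm : 4 ≤ m) (hn : n ≤ m) (hs : Odd s) : ∃ A, Ind1 m n s A := by
  obtain ⟨E, hE, -⟩ := exists_index hm n hn hs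
  exact ⟨_, rel_one hn hs hE⟩

theorem exists_ind3 {m n s : ℕ} (hm : 5 ≤ m) (hn3 : 3 ≤ n) (hn : n ≤ m) (hs : Odd s) :
    ∃ E, Ind3 m n s E := by
  obtain ⟨E, hE, -⟩ := exists_index (by omega) n hn hs
  exact ⟨_, rel_three hm hn3 hn hs hE⟩

/-- **The converse**, for any base. -/
theorem prime_of {m b k y : ℕ} (hm : 4 ≤ m) (hy : ¬ 2 ^ (m + 1) ∣ y)
    (h : (b : ZMod (Nat.fermatNumber m)) ^ (k * T m) = 2 ^ y) : (Nat.fermatNumber m).Prime := by
  have h0 : 0 + m = m := zero_add m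
  have h1 := conv (j := 0) (r := m) (b := b ^ k) (y := (2 ^ (m + 1) - 1) * y) (by omega) ?_ ?_
  · rwa [h0] at h1
  · intro hd
    apply hy
    have hcop : Nat.Coprime (2 ^ (m + 1)) (2 ^ (m + 1) - 1) := by
      have := Nat.coprime_self_sub_right (m := 1) (n := 2 ^ (m + 1)) Nat.one_le_two_pow
      rw [this]
      exact Nat.coprime_one_right _
    exact hcop.dvd_of_dvd_mul_left hd
  · rw [h0]
    have h2 : ((b ^ k : ℕ) : ZMod (Nat.fermatNumber m)) ^ (2 ^ (2 ^ m - (m + 1))) = 2 ^ y := by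
      push_cast
      rw [← pow_mul]
      exact h
    rw [h2, ← pow_add, pow_zero, one_mul]
    have h3 : y + (2 ^ (m + 1) - 1) * y = 2 ^ (m + 1) * y := by
      have h4 : 1 ≤ 2 ^ (m + 1) := Nat.one_le_two_pow
      have h5 : 1 + (2 ^ (m + 1) - 1) = 2 ^ (m + 1) := by omega
      calc y + (2 ^ (m + 1) - 1) * y = (1 + (2 ^ (m + 1) - 1)) * y := by ring
        _ = 2 ^ (m + 1) * y := by rw [h5]
    rw [h3]
    have h6 := two_pow_congr (m := m) (a := 2 ^ (m + 1) * y) (b := 0) (by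
      push_cast
      rw [sub_zero]
      exact dvd_mul_right _ _)
    rw [h6, pow_zero]

end Run7.h302.FE
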