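import Pool.Agent.Y875.FP.MerH

/-!
# Signs and weights of the exponents `2 ^ n * s`
-/

set_option autoImplicit false

namespace Run7.h302.FE

open Pool.Agent.Y875.FP (sgn sgn_or unit_of_odd)

theorem cast_odd_mul_half {m : ℕ} (u : ZMod (2 ^ (m + 1))) (hu : Odd u.val) :
    (2 ^ m : ZMod (2 ^ (m + 1))) * u = 2 ^ m := by
  obtain ⟨c, hc⟩ := hu
  have h1 : u = ((2 * c + 1 : ℕ) : ZMod (2 ^ (m + 1))) := by
    rw [← hc, ZMod.natCast_zmod_val]
  have h2 : (2 : ZMod (2 ^ (m + 1))) ^ (m + 1) = 0 := by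
    have h3 : ((2 ^ (m + 1) : ℕ) : ZMod (2 ^ (m + 1))) = 0 := ZMod.natCast_self _
    push_cast at h3
    exact h3
  rw [h1]
  push_cast
  calc (2 : ZMod (2 ^ (m + 1))) ^ m * (2 * c + 1) = 2 ^ (m + 1) * c + 2 ^ m := by ring
    _ = 2 ^ m := by rw [h2, zero_mul, zero_add]

theorem two_pow_zero {m k : ℕ} (h : m + 1 ≤ k) : (2 : ZMod (2 ^ (m + 1))) ^ k = 0 := by
  have h3 : ((2 ^ (m + 1) : ℕ) : ZMod (2 ^ (m + 1))) = 0 := ZMod.natCast_self _
  push_cast at h3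
  obtain ⟨c, rfl⟩ := Nat.exists_eq_add_of_le h
  rw [pow_add (2 : ZMod (2 ^ (m + 1))) (m + 1) c, h3, zero_mul]

/-- the inverse of an odd number -/
theorem inv_odd (m : ℕ) {s : ℕ} (hs : Odd s) :
    (s : ZMod (2 ^ (m + 1))) * (s : ZMod (2 ^ (m + 1)))⁻¹ = 1 := by
  obtain ⟨u, hu⟩ := unit_of_odd m hs
  rw [← hu]
  exact ZMod.mul_inv_of_unit _ u.isUnit

theorem val_odd_of_unit {m : ℕ} {x y : ZMod (2 ^ (m + 1))} (h : x * y = 1) : Odd x.val := by
  have hu : IsUnit x := IsUnit.of_mul_eq_one y h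
  obtain ⟨u, hu⟩ := hu
  have h1 := ZMod.val_coe_unit_coprime u
  rw [hu] at h1
  have h2 : Nat.Coprime x.val 2 := Nat.Coprime.coprime_dvd_right (dvd_pow_self 2 (by omega)) h1
  exact (Nat.coprime_two_right.1 h2)

theorem odd_shift {m n s : ℕ} (hs : Odd s) (hn : n < m) : Odd (s + 2 ^ (m - n)) := by
  apply hs.add_even
  exact Even.pow_of_ne_zero even_two (by omega)

/-- the shift of the inverse -/
theorem inv_shift {m s a : ℕ} (hs : Odd s) (hs' : Odd (s + a)) :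
    ((s + a : ℕ) : ZMod (2 ^ (m + 1)))⁻¹ = (s : ZMod (2 ^ (m + 1)))⁻¹ -
      a * ((s : ZMod (2 ^ (m + 1)))⁻¹ * ((s + a : ℕ) : ZMod (2 ^ (m + 1)))⁻¹) := by
  have h1 := inv_odd m hs
  have h2 := inv_odd m hs'
  set x := (s : ZMod (2 ^ (m + 1)))⁻¹
  set y := ((s + a : ℕ) : ZMod (2 ^ (m + 1)))⁻¹
  push_cast at h2
  linear_combination (-y) * h1 + x * h2

theorem sgn_even {m n s k : ℕ} (hs : Odd s) (hn : n < m) (hk : 2 ^ (n + 1) ∣ k) :
    sgn m (s + 2 ^ (m - n)) k = sgn m s k := by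
  have h : (k : ZMod (2 ^ (m + 1))) * ((s + 2 ^ (m - n) : ℕ) : ZMod (2 ^ (m + 1)))⁻¹ =
      k * (s : ZMod (2 ^ (m + 1)))⁻¹ := by
    rw [inv_shift hs (odd_shift hs hn)]
    obtain ⟨c, rfl⟩ := hk
    have h1 : (2 : ZMod (2 ^ (m + 1))) ^ (n + 1) * 2 ^ (m - n) = 0 := by
      rw [← pow_add]
      exact two_pow_zero (by omega)
    push_cast
    linear_combination (-(c * ((s : ZMod (2 ^ (m + 1)))⁻¹ *
      ((s : ZMod (2 ^ (m + 1))) + 2 ^ (m - n))⁻¹))) * h1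
  unfold sgn
  rw [h]

theorem val_add_half {m : ℕ} (x : ZMod (2 ^ (m + 1))) :
    (x + 2 ^ m).val < 2 ^ m ↔ ¬ x.val < 2 ^ m := by
  have h1 : (2 ^ m : ZMod (2 ^ (m + 1))) = ((2 ^ m : ℕ) : ZMod (2 ^ (m + 1))) := by push_cast; rfl
  have h2 : ((2 ^ m : ℕ) : ZMod (2 ^ (m + 1))).val = 2 ^ m := by
    apply ZMod.val_natCast_of_lt
    exact Nat.pow_lt_pow_right (by norm_num) (by omega)
  have hx := ZMod.val_lt x
  have h3 : 2 ^ (m + 1) = 2 ^ m + 2 ^ m := by ring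
  rw [h1, ZMod.val_add, h2]
  rcases Nat.lt_or_ge x.val (2 ^ m) with h | h
  · rw [Nat.mod_eq_of_lt (by omega)]
    omega
  · rw [Nat.mod_eq_sub_mod (by omega), Nat.mod_eq_of_lt (by omega)]
    omega

theorem sgn_odd {m n s k : ℕ} (hs : Odd s) (hn : n < m) (hk : Odd k) :
    sgn m (s + 2 ^ (m - n)) (2 ^ n * k) = - sgn m s (2 ^ n * k) := by
  have hs' := odd_shift hs hn
  have h : ((2 ^ n * k : ℕ) : ZMod (2 ^ (m + 1))) *
      ((s + 2 ^ (m - n) : ℕ) : ZMod (2 ^ (m + 1)))⁻¹ =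
      (2 ^ n * k : ℕ) * (s : ZMod (2 ^ (m + 1)))⁻¹ + 2 ^ m := by
    have h1 := inv_shift (m := m) hs hs'
    set x := (s : ZMod (2 ^ (m + 1)))⁻¹ with hx
    set y := ((s + 2 ^ (m - n) : ℕ) : ZMod (2 ^ (m + 1)))⁻¹ with hy
    have h2 : (2 : ZMod (2 ^ (m + 1))) ^ n * 2 ^ (m - n) = 2 ^ m := by
      rw [← pow_add]
      congr 1
      omega
    have h4 : (k : ZMod (2 ^ (m + 1))) * (k : ZMod (2 ^ (m + 1)))⁻¹ = 1 := inv_odd m hk
    have h5 : Odd ((k : ZMod (2 ^ (m + 1))) * x * y).val := by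
      refine val_odd_of_unit (y := s * (s + 2 ^ (m - n) : ℕ) * (k : ZMod (2 ^ (m + 1)))⁻¹) ?_
      have e1 := inv_odd m hs
      have e2 := inv_odd m hs'
      rw [← hx] at e1
      rw [← hy] at e2
      calc (k : ZMod (2 ^ (m + 1))) * x * y * (s * (s + 2 ^ (m - n) : ℕ) *
            (k : ZMod (2 ^ (m + 1)))⁻¹) = (s * x) * ((s + 2 ^ (m - n) : ℕ) * y) *
            (k * (k : ZMod (2 ^ (m + 1)))⁻¹) := by ring
        _ = 1 := by rw [e1, e2, h4, one_mul, one_mul]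
    have h6 := cast_odd_mul_half _ h5
    have h7 : (2 : ZMod (2 ^ (m + 1))) ^ m + 2 ^ m = 0 := by
      have e1 := two_pow_zero (m := m) (le_refl (m + 1))
      have e2 := pow_succ (2 : ZMod (2 ^ (m + 1))) m
      linear_combination e1 - e2
    rw [h1]
    push_cast
    linear_combination (-(k * x * y)) * h2 - h6 - h7
  unfold sgn
  rw [h]
  simp only [val_add_half]
  split_ifs <;> simp_all

/-- the weights: `DD n s k` is the sum of `s' ε_{s'}(k)` over the lifts `s'` modulo `2 ^ (m + 1)` of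
`s` modulo `2 ^ (m + 1 - n)` -/
def DD (m : ℕ) : ℕ → ℕ → ℕ → ℤ
  | 0, s, k => s * sgn m s k
  | n + 1, s, k => DD m n s k + DD m n (s + 2 ^ (m - n)) k

theorem DD_dvd {m : ℕ} : ∀ (n : ℕ) {s k : ℕ}, n ≤ m → Odd s → 2 ^ n ∣ k →
    DD m n s k = sgn m s k * (2 ^ n * s + 2 ^ m * (2 ^ n - 1)) := by
  intro n
  induction n with
  | zero =>
    intro s k _ _ _
    simp only [DD]
    ring
  | succ n ih =>
    intro s k hn hs hk
    have hk' : 2 ^ n ∣ k := (pow_dvd_pow 2 (Nat.le_succ n)).trans hk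
    have hs' := odd_shift hs (show n < m by omega)
    rw [DD, ih (by omega) hs hk', ih (by omega) hs' hk', sgn_even hs (by omega) hk]
    have h1 : (2 : ℤ) ^ n * 2 ^ (m - n) = 2 ^ m := by
      rw [← pow_add]
      congr 1
      omega
    push_cast
    rw [pow_succ]
    linear_combination (sgn m s k) * h1

theorem DD_odd {m n s k : ℕ} (hn : n < m) (hs : Odd s) (hk : Odd k) :
    DD m (n + 1) s (2 ^ n * k) = - (2 ^ m * sgn m s (2 ^ n * k)) := by
  have hs' := odd_shift hs hn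
  rw [DD, DD_dvd n hn.le hs (dvd_mul_right _ _), DD_dvd n hn.le hs' (dvd_mul_right _ _),
    sgn_odd hs hn hk]
  have h1 : (2 : ℤ) ^ n * 2 ^ (m - n) = 2 ^ m := by
    rw [← pow_add]
    congr 1
    omega
  push_cast
  linear_combination (-(sgn m s (2 ^ n * k))) * h1

theorem DD_small {m : ℕ} : ∀ (n : ℕ) {s k : ℕ}, n ≤ m → Odd s → ¬ 2 ^ n ∣ k →
    (2 : ℤ) ^ m ∣ DD m n s k := by
  intro n
  induction n with
  | zero =>
    intro s k _ _ hk
    exact absurd (one_dvd k) (by rwa [pow_zero] at hk)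
  | succ n ih =>
    intro s k hn hs hk
    by_cases hk' : 2 ^ n ∣ k
    · obtain ⟨c, rfl⟩ := hk'
      have hc : Odd c := by
        rw [← Nat.not_even_iff_odd, even_iff_two_dvd]
        rintro ⟨e, rfl⟩
        exact hk ⟨e, by ring⟩
      rw [DD_odd (by omega) hs hc]
      exact (Dvd.intro _ rfl).neg_right
    · rw [DD]
      exact dvd_add (ih (by omega) hs hk') (ih (by omega) (odd_shift hs (by omega)) hk')

end Run7.h302.FE
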