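import Pool.Agent.Run7.h302.FE.Z2

/-!
# The exact weights if `8` divides the exponent
-/

set_option autoImplicit false

namespace Run7.h302.FE

open Pool.Agent.Y875.FP (sgn sgn_or)

theorem inv_lin {m s i : ℕ} (hm : 5 ≤ m) (hs : Odd s) :
    ((s + 2 ^ (m - 2) * i : ℕ) : ZMod (2 ^ (m + 1)))⁻¹ =
      (s : ZMod (2 ^ (m + 1)))⁻¹ - 2 ^ (m - 2) * i := by
  have hs' : Odd (s + 2 ^ (m - 2) * i) := by
    apply hs.add_even
    exact (Even.pow_of_ne_zero even_two (by omega)).mul_right _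
  have h1 := inv_odd m hs
  have h2 := inv_odd m hs'
  set a := (s : ZMod (2 ^ (m + 1)))⁻¹
  set y := ((s + 2 ^ (m - 2) * i : ℕ) : ZMod (2 ^ (m + 1)))⁻¹
  have h3 : (2 : ZMod (2 ^ (m + 1))) ^ (m - 2) * (a - s) = 0 := by
    obtain ⟨c, hc⟩ := hs
    obtain ⟨e, he⟩ := Nat.even_mul_succ_self c
    have h4 : (1 : ZMod (2 ^ (m + 1))) - s * s = -(8 * e) := by
      have h5 : (s * s : ℕ) = 1 + 8 * e := by
        rw [hc]
        nlinarith
      have h6 : (s : ZMod (2 ^ (m + 1))) * s = 1 + 8 * e := by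
        have h7 := congrArg (Nat.cast : ℕ → ZMod (2 ^ (m + 1))) h5
        push_cast at h7
        exact h7
      rw [h6]
      ring
    have h5 : (2 : ZMod (2 ^ (m + 1))) ^ (m - 2) * 8 = 0 := by
      have h6 : (2 : ZMod (2 ^ (m + 1))) ^ (m - 2) * 2 ^ 3 = 2 ^ (m - 2 + 3) := (pow_add _ _ _).symm
      have h7 := two_pow_zero (m := m) (k := m - 2 + 3) (by omega)
      have h8 : (8 : ZMod (2 ^ (m + 1))) = 2 ^ 3 := by norm_num
      rw [h8, h6, h7]
    have h6 : a - s = a * (1 - s * s) := by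
      linear_combination (s : ZMod (2 ^ (m + 1))) * h1
    rw [h6, h4]
    linear_combination (-(a * e)) * h5
  have h4 : (2 : ZMod (2 ^ (m + 1))) ^ (m - 2) * 2 ^ (m - 2) = 0 := by
    have h6 : (2 : ZMod (2 ^ (m + 1))) ^ (m - 2) * 2 ^ (m - 2) = 2 ^ (m - 2 + (m - 2)) :=
      (pow_add _ _ _).symm
    rw [h6]
    exact two_pow_zero (by omega)
  have h5 : ((s + 2 ^ (m - 2) * i : ℕ) : ZMod (2 ^ (m + 1))) * (a - 2 ^ (m - 2) * i) = 1 := by
    push_cast
    linear_combination h1 + (i : ZMod (2 ^ (m + 1))) * h3 - (i : ZMod (2 ^ (m + 1))) ^ 2 * h4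
  calc y = y * (((s + 2 ^ (m - 2) * i : ℕ) : ZMod (2 ^ (m + 1))) * (a - 2 ^ (m - 2) * i)) := by
        rw [h5, mul_one]
    _ = (((s + 2 ^ (m - 2) * i : ℕ) : ZMod (2 ^ (m + 1))) * y) * (a - 2 ^ (m - 2) * i) := by ring
    _ = a - 2 ^ (m - 2) * i := by rw [h2, one_mul]

theorem mod_eight {P u r : ℕ} (hr : r < P) : (u * P + r) % (8 * P) = (u % 8) * P + r := by
  have h1 : u * P + r = (u % 8) * P + r + (u / 8) * (8 * P) := by
    conv_lhs => rw [← Nat.mod_add_div u 8]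
    ring
  rw [h1, Nat.add_mul_mod_self_right]
  apply Nat.mod_eq_of_lt
  have h2 : u % 8 < 8 := Nat.mod_lt _ (by norm_num)
  nlinarith

theorem mod_four {P u r : ℕ} (hr : r < P) :
    (2 * (u * P + r)) % (8 * P) = 2 * ((u % 4) * P + r) := by
  have h1 : 2 * (u * P + r) = 2 * ((u % 4) * P + r) + (u / 4) * (8 * P) := by
    conv_lhs => rw [← Nat.mod_add_div u 4]
    ring
  rw [h1, Nat.add_mul_mod_self_right]
  apply Nat.mod_eq_of_lt
  have h2 : u % 4 < 4 := Nat.mod_lt _ (by norm_num)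
  nlinarith

/-- The signs of `1` and `2` for the four lifts. -/
theorem signs {m s : ℕ} (hm : 5 ≤ m) (hs : Odd s) : ∃ q : ℕ, ∀ i : ℕ, i ≤ 8 →
    sgn m (s + 2 ^ (m - 2) * i) 1 = (if (q + (8 - i)) % 8 < 4 then 1 else -1) ∧
    sgn m (s + 2 ^ (m - 2) * i) 2 = (if (q + (8 - i)) % 4 < 2 then 1 else -1) := by
  set P := 2 ^ (m - 2) with hP
  have hP0 : 0 < P := by positivity
  have hP8 : 2 ^ (m + 1) = 8 * P := by
    rw [hP]
    calc 2 ^ (m + 1) = 2 ^ (3 + (m - 2)) := by congr 1; omega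
      _ = 8 * 2 ^ (m - 2) := by rw [pow_add]; norm_num
  have hP4 : 2 ^ m = 4 * P := by
    rw [hP]
    calc 2 ^ m = 2 ^ (2 + (m - 2)) := by congr 1; omega
      _ = 4 * 2 ^ (m - 2) := by rw [pow_add]; norm_num
  set v := ((s : ZMod (2 ^ (m + 1)))⁻¹).val with hv
  refine ⟨v / P, fun i hi => ?_⟩
  have hr : v % P < P := Nat.mod_lt _ hP0
  have hcast : (((v / P + (8 - i)) * P + v % P : ℕ) : ZMod (2 ^ (m + 1))) =
      ((s + P * i : ℕ) : ZMod (2 ^ (m + 1)))⁻¹ := by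
    rw [hP, inv_lin hm hs, ← hP]
    have h1 : (v / P + (8 - i)) * P + v % P + i * P = v + 8 * P := by
      have h2 := Nat.div_add_mod v P
      have h3 : (8 - i) * P + i * P = 8 * P := by
        rw [← Nat.add_mul]
        congr 1
        omega
      nlinarith
    have h2 := congrArg (Nat.cast : ℕ → ZMod (2 ^ (m + 1))) h1
    have h3 : ((8 * P : ℕ) : ZMod (2 ^ (m + 1))) = 0 := by
      rw [← hP8]
      exact ZMod.natCast_self _
    have h4 : ((v : ℕ) : ZMod (2 ^ (m + 1))) = (s : ZMod (2 ^ (m + 1)))⁻¹ := by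
      rw [hv, ZMod.natCast_zmod_val]
    have h5 : ((P : ℕ) : ZMod (2 ^ (m + 1))) = 2 ^ (m - 2) := by
      rw [hP]
      push_cast
      rfl
    rw [Nat.cast_add, Nat.cast_add v, h3, h4, add_zero, Nat.cast_mul i P, h5] at h2
    linear_combination h2
  constructor
  · have h1 : ((1 : ℕ) : ZMod (2 ^ (m + 1))) * ((s + P * i : ℕ) : ZMod (2 ^ (m + 1)))⁻¹ =
        (((v / P + (8 - i)) * P + v % P : ℕ) : ZMod (2 ^ (m + 1))) := by
      rw [hcast, Nat.cast_one, one_mul]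
    unfold sgn
    rw [h1, ZMod.val_natCast, hP8, mod_eight hr, hP4]
    have h2 : ((v / P + (8 - i)) % 8 * P + v % P < 4 * P) ↔ (v / P + (8 - i)) % 8 < 4 := by
      generalize (v / P + (8 - i)) % 8 = x
      constructor
      · intro h
        by_contra h3
        push Not at h3
        have h4 := Nat.mul_le_mul_right P h3
        have h5 := Nat.zero_le (v % P)
        linarith
      · intro h
        have h4 := Nat.mul_le_mul_right P (Nat.succ_le_of_lt h)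
        rw [Nat.succ_mul] at h4
        linarith
    simp only [h2]
  · have h1 : ((2 : ℕ) : ZMod (2 ^ (m + 1))) * ((s + P * i : ℕ) : ZMod (2 ^ (m + 1)))⁻¹ =
        ((2 * ((v / P + (8 - i)) * P + v % P) : ℕ) : ZMod (2 ^ (m + 1))) := by
      rw [Nat.cast_mul, hcast]
    unfold sgn
    rw [h1, ZMod.val_natCast, hP8, mod_four hr, hP4]
    have h2 : (2 * ((v / P + (8 - i)) % 4 * P + v % P) < 4 * P) ↔ (v / P + (8 - i)) % 4 < 2 := by
      generalize (v / P + (8 - i)) % 4 = x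
      constructor
      · intro h
        by_contra h3
        push Not at h3
        have h4 := Nat.mul_le_mul_right P h3
        have h5 := Nat.zero_le (v % P)
        linarith
      · intro h
        have h4 := Nat.mul_le_mul_right P (Nat.succ_le_of_lt h)
        rw [Nat.succ_mul] at h4
        linarith
    simp only [h2]

theorem base_three {m s : ℕ} (hm : 5 ≤ m) (hs : Odd s) :
    (2 : ℤ) ^ (m + 3) ∣ 2 * DD m 3 s 1 + 2 * DD m 3 s 2 + 4 * DD m 3 s 4 := by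
  obtain ⟨q, hq⟩ := signs hm hs
  have e1 : ∀ s', Odd s' → DD m 1 s' 1 = -(2 ^ m * sgn m s' 1) := fun s' hs' => by
    have := DD_odd (m := m) (n := 0) (k := 1) (by omega) hs' odd_one
    simpa using this
  have e2 : ∀ s', Odd s' → DD m 2 s' 2 = -(2 ^ m * sgn m s' 2) := fun s' hs' => by
    have := DD_odd (m := m) (n := 1) (k := 1) (by omega) hs' odd_one
    simpa using this
  have e4 : DD m 3 s 4 = -(2 ^ m * sgn m s 4) := by
    have := DD_odd (m := m) (n := 2) (k := 1) (by omega) hs odd_one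
    simpa using this
  have hs1 : Odd (s + 2 ^ (m - 1)) := odd_shift hs (by omega)
  have hs2 : Odd (s + 2 ^ (m - 2)) := odd_shift hs (by omega)
  have hs3 : Odd (s + 2 ^ (m - 2) + 2 ^ (m - 1)) := odd_shift hs2 (by omega)
  have h1 : DD m 3 s 1 = -(2 ^ m * (sgn m s 1 + sgn m (s + 2 ^ (m - 1)) 1 +
      (sgn m (s + 2 ^ (m - 2)) 1 + sgn m (s + 2 ^ (m - 2) + 2 ^ (m - 1)) 1))) := by
    have : DD m 3 s 1 = DD m 1 s 1 + DD m 1 (s + 2 ^ (m - 1)) 1 +
      (DD m 1 (s + 2 ^ (m - 2)) 1 + DD m 1 (s + 2 ^ (m - 2) + 2 ^ (m - 1)) 1) := rfl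
    rw [this, e1 _ hs, e1 _ hs1, e1 _ hs2, e1 _ hs3]
    ring
  have h2 : DD m 3 s 2 = -(2 ^ m * (sgn m s 2 + sgn m (s + 2 ^ (m - 2)) 2)) := by
    have : DD m 3 s 2 = DD m 2 s 2 + DD m 2 (s + 2 ^ (m - 2)) 2 := rfl
    rw [this, e2 _ hs, e2 _ hs2]
    ring
  have hp : 2 ^ (m - 1) = 2 ^ (m - 2) * 2 := by
    rw [← pow_succ]
    congr 1
    omega
  have s0 : s = s + 2 ^ (m - 2) * 0 := by rw [mul_zero, add_zero]
  have s1 : s + 2 ^ (m - 2) = s + 2 ^ (m - 2) * 1 := by rw [mul_one]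
  have s2 : s + 2 ^ (m - 1) = s + 2 ^ (m - 2) * 2 := by rw [hp]
  have s3 : s + 2 ^ (m - 2) + 2 ^ (m - 1) = s + 2 ^ (m - 2) * 3 := by rw [hp]; ring
  obtain ⟨a0, b0⟩ := hq 0 (by norm_num)
  obtain ⟨a1, b1⟩ := hq 1 (by norm_num)
  obtain ⟨a2, -⟩ := hq 2 (by norm_num)
  obtain ⟨a3, -⟩ := hq 3 (by norm_num)
  rw [← s0] at a0 b0
  rw [← s1] at a1 b1
  rw [← s2] at a2
  rw [← s3] at a3
  rw [h1, h2, e4, a0, a1, a2, a3, b0, b1]
  have key : (8 : ℤ) ∣ 2 * ((if (q + (8 - 0)) % 8 < 4 then (1 : ℤ) else -1) +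
      (if (q + (8 - 2)) % 8 < 4 then 1 else -1) + ((if (q + (8 - 1)) % 8 < 4 then 1 else -1) +
        (if (q + (8 - 3)) % 8 < 4 then 1 else -1))) +
      2 * ((if (q + (8 - 0)) % 4 < 2 then 1 else -1) +
        (if (q + (8 - 1)) % 4 < 2 then 1 else -1)) + 4 * sgn m s 4 := by
    have hq8 : q % 8 < 8 := Nat.mod_lt _ (by norm_num)
    rcases sgn_or m s 4 with h4 | h4 <;> rw [h4] <;>
    · have c0 : (q + (8 - 0)) % 8 = q % 8 := by omega
      have c1 : (q + (8 - 1)) % 8 = (q % 8 + 7) % 8 := by omega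
      have c2 : (q + (8 - 2)) % 8 = (q % 8 + 6) % 8 := by omega
      have c3 : (q + (8 - 3)) % 8 = (q % 8 + 5) % 8 := by omega
      have d0 : (q + (8 - 0)) % 4 = (q % 8) % 4 := by omega
      have d1 : (q + (8 - 1)) % 4 = (q % 8 + 3) % 4 := by omega
      rw [c0, c1, c2, c3, d0, d1]
      generalize q % 8 = w at hq8
      interval_cases w <;> decide
  obtain ⟨c, hc⟩ := key
  refine ⟨-c, ?_⟩
  have h3 : (2 : ℤ) ^ (m + 3) = 2 ^ m * 8 := by rw [pow_add]; norm_num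
  rw [h3]
  linear_combination (-(2 : ℤ) ^ m) * hc

theorem corr_three {m : ℕ} (hm : 5 ≤ m) : ∀ (n : ℕ), 3 ≤ n → n ≤ m → ∀ {s : ℕ}, Odd s →
    (2 : ℤ) ^ (m + 3) ∣ 2 * DD m n s 1 + 2 * DD m n s 2 + 4 * DD m n s 4 := by
  intro n hn
  induction n, hn using Nat.le_induction with
  | base =>
    intro _ s hs
    exact base_three hm hs
  | succ n hn ih =>
    intro hnm s hs
    have h1 := ih (by omega) hs
    have h2 := ih (by omega) (odd_shift hs (show n < m by omega))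
    have h3 : 2 * DD m (n + 1) s 1 + 2 * DD m (n + 1) s 2 + 4 * DD m (n + 1) s 4 =
        (2 * DD m n s 1 + 2 * DD m n s 2 + 4 * DD m n s 4) +
        (2 * DD m n (s + 2 ^ (m - n)) 1 + 2 * DD m n (s + 2 ^ (m - n)) 2 +
          4 * DD m n (s + 2 ^ (m - n)) 4) := by
      have e : ∀ k, DD m (n + 1) s k = DD m n s k + DD m n (s + 2 ^ (m - n)) k := fun _ => rfl
      rw [e, e, e]
      ring
    rw [h3]
    exact dvd_add h1 h2

theorem Z2.of_dvd {N : ℕ} {c : ℤ} (h : (2 : ℤ) ^ N ∣ c) : Z2 N (c : ℚ) := by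
  have h1 : Z2 0 (1 : ℚ) := ⟨1, 1, odd_one, by norm_num⟩
  have h2 := h1.mul_dvd h
  rwa [mul_one, add_zero] at h2

theorem W_three {m n s : ℕ} (hm : 5 ≤ m) (hn3 : 3 ≤ n) (hn : n ≤ m) (hs : Odd s) :
    Z2 (m + 3) (W m n s (2 ^ n * (2 * m + 4)) - X m n s) := by
  classical
  unfold W X
  rw [sum_mult, Finset.mul_sum, add_sub_right_comm, ← Finset.sum_sub_distrib]
  refine (Z2.sum _ fun t ht => ?_).add ?_
  · rw [Finset.mem_Icc] at ht
    rw [W_main hn hs ht.1, add_sub_cancel_left]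
    have h1 := (Z2_q3 hn3 ht.1).mul_dvd (M := m - n)
      (c := sgn m s (2 ^ n * t) * (2 ^ n - 1) * 2 ^ (m - n)) (dvd_mul_left _ _)
    exact h1.mono (by omega)
  · have h8 : 8 ≤ 2 ^ n := by
      calc 8 = 2 ^ 3 := by norm_num
        _ ≤ 2 ^ n := Nat.pow_le_pow_right (by norm_num) hn3
    have hsub : ({1, 2, 4} : Finset ℕ) ⊆
        (Finset.Icc 1 (2 ^ n * (2 * m + 4))).filter (fun k => ¬ 2 ^ n ∣ k) := by
      intro k hk
      simp only [Finset.mem_insert, Finset.mem_singleton] at hk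
      rw [Finset.mem_filter, Finset.mem_Icc]
      refine ⟨⟨by omega, ?_⟩, fun hd => ?_⟩
      · have h9 : 2 ^ n ≤ 2 ^ n * (2 * m + 4) := Nat.le_mul_of_pos_right _ (by omega)
        omega
      · have := Nat.le_of_dvd (by omega) hd
        omega
    rw [← Finset.sum_sdiff hsub]
    refine (Z2.sum _ fun k hk => ?_).add ?_
    · rw [Finset.mem_sdiff, Finset.mem_filter, Finset.mem_Icc] at hk
      simp only [Finset.mem_insert, Finset.mem_singleton, not_or] at hk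
      exact (Z2_three (by omega)).mul_dvd (DD_small n hn hs hk.1.2)
    · rw [Finset.sum_insert (by simp), Finset.sum_insert (by simp), Finset.sum_singleton]
      have h1 := Z2.of_dvd (corr_three hm n hn3 hn hs)
      push_cast at h1
      convert h1 using 1
      push_cast
      ring

end Run7.h302.FE
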