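import Pool.Agent.Run7.h302.FE.Sgn

/-!
# Congruences between rational numbers with odd denominator
-/

set_option autoImplicit false

namespace Run7.h302.FE

open Pool.Agent.Y875.FP (sgn sgn_or)

/-- `q` is `2 ^ N` times a rational number with odd denominator -/
def Z2 (N : ℕ) (q : ℚ) : Prop := ∃ d B : ℤ, Odd d ∧ (d : ℚ) * q = 2 ^ N * B

theorem Z2.zero (N : ℕ) : Z2 N 0 := ⟨1, 0, odd_one, by simp⟩

theorem Z2.add {N : ℕ} {a b : ℚ} (ha : Z2 N a) (hb : Z2 N b) : Z2 N (a + b) := by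
  obtain ⟨d, B, hd, h1⟩ := ha
  obtain ⟨d', B', hd', h1'⟩ := hb
  refine ⟨d * d', d' * B + d * B', hd.mul hd', ?_⟩
  push_cast
  linear_combination (d' : ℚ) * h1 + (d : ℚ) * h1'

theorem Z2.mul_int {N : ℕ} {a : ℚ} (ha : Z2 N a) (c : ℤ) : Z2 N (c * a) := by
  obtain ⟨d, B, hd, h1⟩ := ha
  refine ⟨d, c * B, hd, ?_⟩
  push_cast
  linear_combination (c : ℚ) * h1

theorem Z2.neg {N : ℕ} {a : ℚ} (ha : Z2 N a) : Z2 N (-a) := by
  have h := ha.mul_int (-1)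
  push_cast at h
  rwa [neg_one_mul] at h

theorem Z2.sub {N : ℕ} {a b : ℚ} (ha : Z2 N a) (hb : Z2 N b) : Z2 N (a - b) := by
  rw [sub_eq_add_neg]
  exact ha.add hb.neg

theorem Z2.sum {N : ℕ} {ι : Type} (I : Finset ι) {f : ι → ℚ} (h : ∀ i ∈ I, Z2 N (f i)) :
    Z2 N (∑ i ∈ I, f i) :=
  Finset.sum_induction f (Z2 N) (fun _ _ ha hb => ha.add hb) (Z2.zero N) h

theorem Z2.mono {N M : ℕ} (h : M ≤ N) {a : ℚ} (ha : Z2 N a) : Z2 M a := by
  obtain ⟨d, B, hd, h1⟩ := ha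
  refine ⟨d, 2 ^ (N - M) * B, hd, ?_⟩
  rw [h1]
  push_cast
  rw [← mul_assoc, ← pow_add]
  congr 2
  omega

theorem Z2.mul_dvd {N M : ℕ} {a : ℚ} (ha : Z2 N a) {c : ℤ} (hc : (2 : ℤ) ^ M ∣ c) :
    Z2 (M + N) (c * a) := by
  obtain ⟨b, rfl⟩ := hc
  obtain ⟨d, B, hd, h1⟩ := ha
  refine ⟨d, b * B, hd, ?_⟩
  push_cast
  rw [pow_add]
  linear_combination ((2 : ℚ) ^ M * b) * h1

theorem Z2.int {N : ℕ} {z : ℤ} (h : Z2 N (z : ℚ)) : (2 : ℤ) ^ N ∣ z := by
  obtain ⟨d, B, hd, h1⟩ := h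
  have h2 : d * z = 2 ^ N * B := by exact_mod_cast h1
  have hcop : IsCoprime ((2 : ℤ) ^ N) d := by
    apply IsCoprime.pow_left
    obtain ⟨c, hc⟩ := hd
    exact ⟨-c, 1, by rw [hc]; ring⟩
  exact hcop.dvd_of_dvd_mul_left ⟨B, h2⟩

theorem Z2.term {N a k e o : ℕ} (hk : k = 2 ^ e * o) (ho : Odd o) (h : N + e ≤ a) :
    Z2 N ((2 : ℚ) ^ a / k) := by
  obtain ⟨c, rfl⟩ := Nat.exists_eq_add_of_le h
  have h4 : (o : ℚ) ≠ 0 := by
    have : o ≠ 0 := by
      rintro rfl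
      exact absurd ho (by decide)
    exact_mod_cast this
  refine ⟨o, 2 ^ c, by exact_mod_cast ho, ?_⟩
  rw [hk]
  push_cast
  rw [pow_add, pow_add]
  field_simp

/-- the exponent of `2` in a positive number -/
theorem exists_val {k : ℕ} (hk : 1 ≤ k) : ∃ e o : ℕ, Odd o ∧ k = 2 ^ e * o ∧ 2 ^ e ≤ k ∧ e + 1 ≤ k := by
  obtain ⟨e, o, ho, he⟩ := Nat.exists_eq_two_pow_mul_odd (show k ≠ 0 by omega)
  have h1 : 2 ^ e ≤ k := by
    rw [he]
    exact Nat.le_mul_of_pos_right _ ho.pos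
  have h2 : e < 2 ^ e := Nat.lt_two_pow_self
  exact ⟨e, o, ho, he, h1, by omega⟩

theorem Z2_one {k : ℕ} (hk : 1 ≤ k) : Z2 1 ((2 : ℚ) ^ k / k) := by
  obtain ⟨e, o, ho, he, -, h⟩ := exists_val hk
  exact Z2.term he ho (by omega)

theorem Z2_three {k : ℕ} (hk : k = 3 ∨ 5 ≤ k) : Z2 3 ((2 : ℚ) ^ k / k) := by
  obtain ⟨e, o, ho, he, h1, h⟩ := exists_val (show 1 ≤ k by omega)
  refine Z2.term he ho ?_
  rcases hk with hk | hk
  · subst hk
    have h2 : e = 0 := by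
      by_contra h0
      have h3 : 2 ∣ 3 := by
        rw [he]
        exact (dvd_pow_self 2 h0).mul_right _
      omega
    omega
  · rcases Nat.lt_or_ge e 3 with h3 | h3
    · interval_cases e
      · omega
      · omega
      · have : o ≠ 1 := by
          rintro rfl
          omega
        obtain ⟨c, hc⟩ := ho
        omega
    · have h4 : ∀ e : ℕ, 3 ≤ e → e + 3 ≤ 2 ^ e := by
        intro e he
        induction e, he using Nat.le_induction with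
        | base => norm_num
        | succ e he ih => rw [pow_succ]; omega
      have := h4 e h3
      omega

theorem Z2_far {m k : ℕ} (hk : 2 * m + 4 < k) : Z2 (m + 3) ((2 : ℚ) ^ k / k) := by
  obtain ⟨e, o, ho, he, h1, h⟩ := exists_val (show 1 ≤ k by omega)
  refine Z2.term he ho ?_
  have h2 : ∀ e : ℕ, 2 * e ≤ 2 ^ e := by
    intro e
    induction e with
    | zero => norm_num
    | succ e ih =>
      rcases Nat.eq_zero_or_pos e with h | h
      · subst h; norm_num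
      · rw [pow_succ]; omega
  have h3 := h2 e
  omega

/-- the terms of the series -/
noncomputable def q (n t : ℕ) : ℚ := (2 : ℚ) ^ (2 ^ n * t) / t

theorem Z2_q {n t N : ℕ} (ht : 1 ≤ t) (h : ∀ x, n ≤ x → N + (x - n) ≤ 2 ^ x) :
    Z2 N (q n t) := by
  obtain ⟨e, o, ho, he, h1, -⟩ := exists_val ht
  refine Z2.term he ho ?_
  have h2 := h (n + e) (by omega)
  have h3 : 2 ^ (n + e) ≤ 2 ^ n * t := by
    rw [pow_add]
    exact Nat.mul_le_mul_left _ h1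
  omega

theorem Z2_q1 {n t : ℕ} (ht : 1 ≤ t) : Z2 (n + 1) (q n t) := by
  refine Z2_q ht fun x hx => ?_
  have : x < 2 ^ x := Nat.lt_two_pow_self
  omega

theorem Z2_q3 {n t : ℕ} (hn : 3 ≤ n) (ht : 1 ≤ t) : Z2 (n + 3) (q n t) := by
  refine Z2_q ht fun x hx => ?_
  have h4 : ∀ e : ℕ, 3 ≤ e → e + 3 ≤ 2 ^ e := by
    intro e he
    induction e, he using Nat.le_induction with
    | base => norm_num
    | succ e he ih => rw [pow_succ]; omega
  have := h4 x (by omega)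
  omega

theorem Z2_q_all {n t : ℕ} (ht : 1 ≤ t) : Z2 (2 ^ n) (q n t) := by
  refine Z2_q ht fun x hx => ?_
  obtain ⟨c, rfl⟩ := Nat.exists_eq_add_of_le hx
  rw [pow_add, Nat.add_sub_cancel_left]
  have h1 : c < 2 ^ c := Nat.lt_two_pow_self
  have h2 : 1 ≤ 2 ^ n := Nat.one_le_two_pow
  nlinarith

theorem Z2_q_two {n t : ℕ} (hn : 1 ≤ n) (ht : 2 ≤ t) : Z2 (2 ^ n + 1) (q n t) := by
  obtain ⟨e, o, ho, he, -, h⟩ := exists_val (show 1 ≤ t by omega)
  refine Z2.term he ho ?_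
  have h2 : 2 ≤ 2 ^ n := by
    calc 2 = 2 ^ 1 := (pow_one 2).symm
      _ ≤ 2 ^ n := Nat.pow_le_pow_right (by norm_num) hn
  obtain ⟨c, rfl⟩ := Nat.exists_eq_add_of_le ht
  nlinarith

theorem Z2_q_big {m n t : ℕ} (hm : 4 ≤ m) (hn : 1 ≤ n) (ht : 1 ≤ t) (h : 2 ^ m ≤ 2 ^ n * t) :
    Z2 (m + 3) (q n t) := by
  obtain ⟨e, o, ho, he, -, h'⟩ := exists_val ht
  refine Z2.term he ho ?_
  have h2 : 2 ≤ 2 ^ n := by
    calc 2 = 2 ^ 1 := (pow_one 2).symm
      _ ≤ 2 ^ n := Nat.pow_le_pow_right (by norm_num) hn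
  have h3 : 2 * t ≤ 2 ^ n * t := Nat.mul_le_mul_right _ h2
  have h4 : ∀ m : ℕ, 4 ≤ m → 2 * m + 4 ≤ 2 ^ m := by
    intro m hm
    induction m, hm using Nat.le_induction with
    | base => norm_num
    | succ e he ih => rw [pow_succ]; omega
  have := h4 m hm
  omega

/-! ### The sums -/

theorem sum_range_Icc (f : ℕ → ℚ) (K : ℕ) :
    ∑ k ∈ Finset.range K, f (k + 1) = ∑ k ∈ Finset.Icc 1 K, f k := by
  have h2 : Finset.Icc 1 K = Finset.Ico 1 (K + 1) := by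
    ext k
    simp only [Finset.mem_Icc, Finset.mem_Ico]
    omega
  rw [h2, Finset.sum_Ico_eq_sum_range, Nat.add_sub_cancel]
  exact Finset.sum_congr rfl fun k _ => by rw [add_comm 1 k]

theorem sum_mult (f : ℕ → ℚ) (n L : ℕ) :
    ∑ k ∈ Finset.Icc 1 (2 ^ n * L), f k = ∑ t ∈ Finset.Icc 1 L, f (2 ^ n * t) +
      ∑ k ∈ (Finset.Icc 1 (2 ^ n * L)).filter (fun k => ¬ 2 ^ n ∣ k), f k := by
  classical
  rw [← Finset.sum_filter_add_sum_filter_not (Finset.Icc 1 (2 ^ n * L)) (fun k => 2 ^ n ∣ k)]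
  congr 1
  have h1 : (Finset.Icc 1 (2 ^ n * L)).filter (fun k => 2 ^ n ∣ k) =
      (Finset.Icc 1 L).image (fun t => 2 ^ n * t) := by
    ext k
    simp only [Finset.mem_filter, Finset.mem_Icc, Finset.mem_image]
    constructor
    · rintro ⟨⟨h1, h2⟩, c, rfl⟩
      refine ⟨c, ⟨?_, ?_⟩, rfl⟩
      · rcases Nat.eq_zero_or_pos c with h | h
        · subst h
          omega
        · exact h
      · exact Nat.le_of_mul_le_mul_left h2 (by positivity)
    · rintro ⟨c, ⟨h1, h2⟩, rfl⟩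
      refine ⟨⟨?_, Nat.mul_le_mul_left _ h2⟩, dvd_mul_right _ _⟩
      exact Nat.one_le_iff_ne_zero.2 (by positivity)
  rw [h1, Finset.sum_image]
  intro a _ b _ hab
  exact Nat.eq_of_mul_eq_mul_left (by positivity) hab

/-- the weighted sum of all terms -/
noncomputable def W (m n s K : ℕ) : ℚ :=
  ∑ k ∈ Finset.Icc 1 K, (DD m n s k : ℚ) * ((2 : ℚ) ^ k / k)

/-- the series -/
noncomputable def X (m n s : ℕ) : ℚ :=
  s * ∑ t ∈ Finset.Icc 1 (2 * m + 4), (sgn m s (2 ^ n * t) : ℚ) * q n t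

theorem W_far {m n s K : ℕ} (hK : 2 * m + 4 ≤ K) :
    Z2 (m + 3) (W m n s K - W m n s (2 * m + 4)) := by
  have h1 : W m n s K - W m n s (2 * m + 4) = ∑ k ∈ Finset.Ioc (2 * m + 4) K,
      (DD m n s k : ℚ) * ((2 : ℚ) ^ k / k) := by
    have h2 : Finset.Icc 1 K = Finset.Icc 1 (2 * m + 4) ∪ Finset.Ioc (2 * m + 4) K := by
      ext k
      simp only [Finset.mem_union, Finset.mem_Icc, Finset.mem_Ioc]
      omega
    have h3 : Disjoint (Finset.Icc 1 (2 * m + 4)) (Finset.Ioc (2 * m + 4) K) := by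
      rw [Finset.disjoint_left]
      intro k
      simp only [Finset.mem_Icc, Finset.mem_Ioc]
      omega
    unfold W
    rw [h2, Finset.sum_union h3]
    ring
  rw [h1]
  refine Z2.sum _ fun k hk => ?_
  rw [Finset.mem_Ioc] at hk
  exact (Z2_far hk.1).mul_int _

/-- the terms whose number is divisible by `2 ^ n` -/
theorem W_main {m n s t : ℕ} (hn : n ≤ m) (hs : Odd s) (ht : 1 ≤ t) :
    (DD m n s (2 ^ n * t) : ℚ) * ((2 : ℚ) ^ (2 ^ n * t) / ((2 ^ n * t : ℕ) : ℚ)) =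
      s * ((sgn m s (2 ^ n * t) : ℚ) * q n t) +
      ((sgn m s (2 ^ n * t) * (2 ^ n - 1) * 2 ^ (m - n) : ℤ) : ℚ) * q n t := by
  rw [DD_dvd n hn hs (dvd_mul_right _ _), q]
  have h1 : (2 : ℚ) ^ m = 2 ^ n * 2 ^ (m - n) := by
    rw [← pow_add]
    congr 1
    omega
  have ht0 : (t : ℚ) ≠ 0 := by
    have : t ≠ 0 := by omega
    exact_mod_cast this
  push_cast
  rw [h1]
  field_simp

theorem W_one {m n s : ℕ} (hn : n ≤ m) (hs : Odd s) :
    Z2 (m + 1) (W m n s (2 ^ n * (2 * m + 4)) - X m n s) := by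
  unfold W X
  rw [sum_mult, Finset.mul_sum, add_sub_right_comm, ← Finset.sum_sub_distrib]
  refine (Z2.sum _ fun t ht => ?_).add (Z2.sum _ fun k hk => ?_)
  · rw [Finset.mem_Icc] at ht
    rw [W_main hn hs ht.1, add_sub_cancel_left]
    have h1 := (Z2_q1 (n := n) ht.1).mul_dvd (M := m - n)
      (c := sgn m s (2 ^ n * t) * (2 ^ n - 1) * 2 ^ (m - n)) (dvd_mul_left _ _)
    exact h1.mono (by omega)
  · rw [Finset.mem_filter, Finset.mem_Icc] at hk
    exact (Z2_one hk.1.1).mul_dvd (DD_small n hn hs hk.2)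

end Run7.h302.FE
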